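import Pool.Agent.Helper57.PairDefs

/-!
# UG: the top level of Theorem U

`zc I`: number of zeros (with multiplicity) with ordinate in `I`. `Mp`, `Mm`: the two measure statements.
-/

set_option autoImplicit false
open MeasureTheory Set Filter Topology
open Pool.Agent.Helper57.PC

namespace Pool.Agent.Helper93.UG

/-- Number of the nontrivial zeros of zeta, counted with multiplicity, whose ordinate lies in `I`. -/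
noncomputable def zc (I : Set ℝ) : ℕ := ∑ᶠ ρ ∈ {ρ : ℂ | IsNontrivialZero ρ ∧ ρ.im ∈ I}, mult ρ

/-- `g` is the ordinate of a nontrivial zero. -/
def IsOrd (g : ℝ) : Prop := ∃ ρ : ℂ, IsNontrivialZero ρ ∧ ρ.im = g

/-- mean spacing at height `T`. -/
noncomputable def sp (T : ℝ) : ℝ := 2 * Real.pi / Real.log T

/-- starts of long `r`-gaps. -/
noncomputable def Glong (T ℓ : ℝ) (r : ℕ) : Set ℝ :=
  {g : ℝ | T ≤ g ∧ g ≤ 2 * T ∧ IsOrd g ∧ zc (Ioo g (g + ℓ * sp T)) < r}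

/-- starts of short `r`-gaps. -/
noncomputable def Gshort (T ℓ : ℝ) (r : ℕ) : Set ℝ :=
  {g : ℝ | T ≤ g ∧ g ≤ 2 * T ∧ IsOrd g ∧ r < zc (Icc g (g + ℓ * sp T))}

/-- Measure statement, clusters. -/
def Mp : Prop := ∃ θ A c₀ c₁ T₀ : ℝ, 0 < θ ∧ 0 < A ∧ 1 ≤ c₀ ∧ 0 < c₁ ∧ ∀ T : ℝ, T₀ ≤ T → ∀ c : ℝ, c₀ ≤ c →
  c ≤ c₁ * (Real.log T / Real.log (Real.log T)) →
    ENNReal.ofReal (Real.exp (-(A * c)) * T) ≤
      volume {t : ℝ | T ≤ t ∧ t ≤ 2 * T ∧ c + θ * √c ≤ (zc (Ico t (t + c * sp T)) : ℝ)}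

/-- Measure statement, long gaps; there is an ordinate in `[t - B c sp T, t)`. -/
def Mm : Prop := ∃ θ A B c₀ c₁ T₀ : ℝ, 0 < θ ∧ 0 < A ∧ 0 < B ∧ 1 ≤ c₀ ∧ 0 < c₁ ∧ ∀ T : ℝ, T₀ ≤ T → ∀ c : ℝ, c₀ ≤ c →
  c ≤ c₁ * (Real.log T / Real.log (Real.log T)) →
    ENNReal.ofReal (Real.exp (-(A * c)) * T) ≤
      volume {t : ℝ | T ≤ t ∧ t ≤ 2 * T ∧ (zc (Ico t (t + c * sp T)) : ℝ) ≤ c - θ * √c ∧
        ∃ g : ℝ, IsOrd g ∧ t - B * c * sp T ≤ g ∧ g < t}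

/-- The final statement. -/
def Final : Prop := ∃ Θ A T₀ : ℝ, 0 < Θ ∧ 0 < A ∧ ∀ T : ℝ, T₀ ≤ T → ∀ r : ℕ, 1 ≤ r →
  (r : ℝ) ≤ Θ * (Real.log T / Real.log (Real.log T)) →
    Real.exp (-(A * r)) * (T * Real.log T) ≤ ((Glong T (r + Θ * √r) r).ncard : ℝ) ∧
    Real.exp (-(A * r)) * (T * Real.log T) ≤ ((Gshort T (r - Θ * √r) r).ncard : ℝ)

/-- CVp: from measure to ordinates, clusters (`g` the first ordinate `≥ t`, it serves `t ∈ (g - ℓ sp T, g]`). -/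
def CVp : Prop := ∀ T ℓ : ℝ, Real.exp 1 ≤ T → 0 < ℓ → ∀ r : ℕ,
  volume {t : ℝ | T ≤ t ∧ t ≤ 2 * T ∧ r < zc (Ico t (t + ℓ * sp T))} ≤
    ENNReal.ofReal (ℓ * sp T * (((Gshort T ℓ r).ncard : ℝ) + 1))

/-- CVm: from measure to ordinates, long gaps (`g` the last ordinate `< t`, `t - g ≤ D`). -/
def CVm : Prop := ∀ T ℓ D : ℝ, Real.exp 1 ≤ T → 0 < ℓ → 0 < D → ∀ r : ℕ,
  volume {t : ℝ | T ≤ t ∧ t ≤ 2 * T ∧ zc (Ico t (t + ℓ * sp T)) < r ∧ ∃ g : ℝ, IsOrd g ∧ t - D ≤ g ∧ g < t} ≤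
    ENNReal.ofReal (D * (((Glong T ℓ r).ncard : ℝ) + 1))

/-- the window splits. -/
def Split : Prop := ∀ (t h : ℝ) (m : ℕ), 0 ≤ h → 1 ≤ m →
  zc (Ico t (t + m * h)) = ∑ i ∈ Finset.range m, zc (Ico (t + i * h) (t + (i + 1) * h))

end Pool.Agent.Helper93.UG
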