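import Pool.Agent.Helper93.UG.Q3
import Pool.Agent.Helper60.UG.R

/-!
# UG: Q0 and Q3 without the hypothesis on the fourth moment
-/

set_option autoImplicit false
open MeasureTheory Set Filter Topology
open Pool.Agent.Helper57.Zeta Pool.Agent.Helper57.LH Pool.Agent.Helper57.ED Pool.Agent.Helper54.LG
open Pool.Agent.Helper69.UG

namespace Pool.Agent.Helper93.UG

theorem to_meas : ToMeas := to_meas_of Pool.Agent.Helper60.UG.m4

end Pool.Agent.Helper93.UG
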