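import Pool.Agent.Helper93.UG.ToMeas

/-!
# UG-Q3: the two measure statements
-/

set_option autoImplicit false
open MeasureTheory Set Filter Topology
open Pool.Agent.Helper57.Zeta Pool.Agent.Helper57.LH Pool.Agent.Helper57.ED Pool.Agent.Helper54.LG
open Pool.Agent.Helper69.UG

namespace Pool.Agent.Helper93.UG

/-- Q0. -/
def ToMeas : Prop := ∃ A c0 T0 : ℝ, 0 < A ∧ ∀ T, T0 ≤ T → ∀ c, Adm c0 T c → ∀ v : ℝ, v ^ 2 = c / 100 → ∀ G : Set ℝ,
    MeasurableSet G →
    (∀ τ, 5 / 4 * T ≤ τ → τ ≤ 7 / 4 * T → ∃ s : ℝ, |s| ≤ √T ∧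
      Real.exp (-c) * VV T c v ≤ ∫ t in {t : ℝ | t + s ∈ G}, wt T c v τ t) →
    ENNReal.ofReal (Real.exp (-(A * c)) * T) ≤ volume (G ∩ Icc T (2 * T))

/-- Q1. -/
def Few : Prop := ∃ θ c0 T0 : ℝ, 0 < θ ∧ ∀ T, T0 ≤ T → ∀ c, Adm c0 T c → ∀ v : ℝ, v ^ 2 = c / 100 → 0 < v →
    ∀ τ, T ≤ τ → τ ≤ 2 * T → ∃ s : ℝ, |s| ≤ √T ∧
      Real.exp (-c) * VV T c v ≤ ∫ t in {t : ℝ | t + s ∈
        {t : ℝ | (zc (Ico (t - Real.pi / XX T c) (t + Real.pi / XX T c)) : ℝ) ≤ c - θ * √c ∧
          ∃ ρ : ZS, t - Real.pi / XX T c - 16 / XX T c ≤ (ρ : ℂ).im ∧ (ρ : ℂ).im < t - Real.pi / XX T c}}, wt T c v τ t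

/-- Q2. -/
def Many : Prop := ∃ θ c0 T0 : ℝ, 0 < θ ∧ ∀ T, T0 ≤ T → ∀ c, Adm c0 T c → ∀ v : ℝ, v ^ 2 = c / 100 → v < 0 →
    ∀ τ, T ≤ τ → τ ≤ 2 * T → ∃ s : ℝ, |s| ≤ √T ∧
      Real.exp (-c) * VV T c v ≤ ∫ t in {t : ℝ | t + s ∈
        {t : ℝ | c + θ * √c ≤ (zc (Ico (t - Real.pi / XX T c) (t + Real.pi / XX T c)) : ℝ)}}, wt T c v τ t

/-- measurability of the counts. -/
def ZcMeas : Prop := ∀ h : ℝ, Measurable (fun t => (zc (Ico (t - h) (t + h)) : ℝ))

/-- the numbers. -/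
lemma numbers {A : ℝ} (hA : 0 < A) : ∀ᶠ T : ℝ in atTop, ∀ c : ℝ, 1 ≤ c → c * Real.log (Real.log T) ≤ Real.log T / 16 →
    Real.pi / XX T c ≤ 1 ∧ Real.exp (-((A + 1) * c)) * T + 1 ≤ Real.exp (-(A * c)) * T := by
  have hl := Real.tendsto_log_atTop
  have hll : Tendsto (fun T : ℝ => Real.log (Real.log T)) atTop atTop := hl.comp hl
  filter_upwards [hll.eventually_ge_atTop (A + 1), eventually_ge_atTop 16, hl.eventually_gt_atTop 0] with T h1 hT hL c hc hc2
  have hT0 : 0 < T := by linarith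
  have hpi := Real.pi_lt_four
  have hpi0 := Real.pi_pos
  have hc0 : 0 < c := by linarith
  constructor
  · unfold XX
    rw [div_div_eq_mul_div, div_le_one hL]
    have : c * 1 ≤ c * Real.log (Real.log T) := mul_le_mul_of_nonneg_left (by linarith) hc0.le
    nlinarith
  · have h3 : (A + 1) * c ≤ Real.log T / 16 := by
      have := mul_le_mul_of_nonneg_left h1 hc0.le
      linarith
    have h4 : Real.exp (-(Real.log T / 16)) ≤ Real.exp (-(A * c)) := Real.exp_le_exp.mpr (by nlinarith)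
    have h5 : Real.exp (-((A + 1) * c)) ≤ Real.exp (-(A * c)) * (1 / 2) := by
      have e : Real.exp (-((A + 1) * c)) = Real.exp (-(A * c)) * Real.exp (-c) := by rw [← Real.exp_add]; congr 1; ring
      rw [e]
      apply mul_le_mul_of_nonneg_left _ (Real.exp_pos _).le
      have h6 : Real.exp (-c) ≤ Real.exp (-1) := Real.exp_le_exp.mpr (by linarith)
      refine h6.trans ?_
      rw [Real.exp_neg, inv_le_comm₀ (Real.exp_pos _) (by norm_num)]
      have := Real.exp_one_gt_d9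
      norm_num
      linarith
    have h6 : 2 ≤ Real.exp (-(Real.log T / 16)) * T := by
      have e : Real.exp (-(Real.log T / 16)) * T = Real.exp (15 / 16 * Real.log T) := by
        nth_rewrite 2 [← Real.exp_log hT0]
        rw [← Real.exp_add]; congr 1; ring
      rw [e]
      have h7 : (2:ℝ) ≤ Real.log T := by
        rw [Real.le_log_iff_exp_le hT0]
        have h8 : Real.exp 2 = Real.exp 1 ^ 2 := by rw [← Real.exp_nat_mul]; norm_num
        rw [h8]
        have := Real.exp_one_lt_d9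
        have h9 := Real.exp_pos 1
        nlinarith
      have := Real.add_one_le_exp (15 / 16 * Real.log T)
      linarith
    have h8 : Real.exp (-(Real.log T / 16)) * T ≤ Real.exp (-(A * c)) * T := by gcongr
    have h9 : Real.exp (-((A + 1) * c)) * T ≤ Real.exp (-(A * c)) * (1 / 2) * T := by gcongr
    linarith

/-- shift of a set to the left, inside `[T, 2T]`. -/
lemma shift_vol {T δ a : ℝ} {G S : Set ℝ} (hδ : 0 ≤ δ) (hδ1 : δ ≤ 1)
    (h : ENNReal.ofReal (a + 1) ≤ volume (G ∩ Icc T (2 * T)))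
    (hS : ∀ t, t + δ ∈ G → T ≤ t → t ≤ 2 * T → t ∈ S) : ENNReal.ofReal a ≤ volume S := by
  have h1 : G ∩ Icc T (2 * T) ⊆ (fun t => t + (-δ)) ⁻¹' S ∪ Ico T (T + 1) := by
    rintro t ⟨htG, ht1, ht2⟩
    by_cases h2 : t < T + 1
    · right; exact ⟨ht1, h2⟩
    · left
      show t + (-δ) ∈ S
      apply hS
      · rwa [neg_add_cancel_right]
      · linarith
      · linarith
  have h2 : volume (G ∩ Icc T (2 * T)) ≤ volume S + ENNReal.ofReal 1 := by
    refine (measure_mono h1).trans ((measure_union_le _ _).trans ?_)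
    rw [measure_preimage_add_right, Real.volume_Ico]
    apply add_le_add le_rfl
    apply ENNReal.ofReal_le_ofReal; linarith
  by_cases ha : 0 ≤ a
  · rw [ENNReal.ofReal_add ha zero_le_one] at h
    exact (ENNReal.add_le_add_iff_right ENNReal.ofReal_ne_top).mp (h.trans h2)
  · rw [ENNReal.ofReal_of_nonpos (by linarith)]
    exact bot_le

lemma adm_of {T c : ℝ} (hL : 0 < Real.log T) (hll : 0 < Real.log (Real.log T))
    (h : c ≤ 1 / 16 * (Real.log T / Real.log (Real.log T))) : c * Real.log (Real.log T) ≤ Real.log T / 16 := by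
  have := mul_le_mul_of_nonneg_right h hll.le
  have e : 1 / 16 * (Real.log T / Real.log (Real.log T)) * Real.log (Real.log T) = Real.log T / 16 := by
    field_simp
  linarith

theorem mp_of (ht : ToMeas) (hm : Many) (hz : ZcMeas) : Mp := by
  obtain ⟨A, c1, T1, hA, ht⟩ := ht
  obtain ⟨θ, c2, T2, hθ, hm⟩ := hm
  have hl := Real.tendsto_log_atTop
  have hll : Tendsto (fun T : ℝ => Real.log (Real.log T)) atTop atTop := hl.comp hl
  obtain ⟨T3, hT3⟩ := eventually_atTop.mp ((numbers hA).and ((hl.eventually_gt_atTop 0).and ((hll.eventually_gt_atTop 0).and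
    (eventually_ge_atTop 1))))
  refine ⟨θ, A + 1, max 1 (max c1 c2), 1 / 16, max T3 (max T1 T2), hθ, by linarith, le_max_left _ _, by norm_num,
    fun T hT c hc0 hc1 => ?_⟩
  obtain ⟨h1, hL, hLL, hT1⟩ := hT3 T ((le_max_left _ _).trans hT)
  have hc1' : 1 ≤ c := (le_max_left _ _).trans hc0
  have hcc := adm_of hL hLL hc1
  have hcc1 : c1 ≤ c := (le_max_left _ _).trans ((le_max_right _ _).trans hc0)
  have hcc2 : c2 ≤ c := (le_max_right _ _).trans ((le_max_right _ _).trans hc0)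
  obtain ⟨h2, h3⟩ := h1 c hc1' hcc
  have hX : 0 < XX T c := by unfold XX; positivity
  have hpi := Real.pi_pos
  have hv : (-(√c / 10)) ^ 2 = c / 100 := by
    rw [neg_sq, div_pow, Real.sq_sqrt (by linarith)]; norm_num
  have hv0 : -(√c / 10) < 0 := by
    have : 0 < √c := Real.sqrt_pos.mpr (by linarith)
    linarith
  set G : Set ℝ := {t : ℝ | c + θ * √c ≤ (zc (Ico (t - Real.pi / XX T c) (t + Real.pi / XX T c)) : ℝ)} with hG
  have hGm : MeasurableSet G := measurableSet_le measurable_const (hz _)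
  have h4 := ht T ((le_max_left _ _).trans ((le_max_right _ _).trans hT)) c ⟨hcc1, hcc⟩ _ hv G hGm (fun τ hτ1 hτ2 =>
    hm T ((le_max_right _ _).trans ((le_max_right _ _).trans hT)) c ⟨hcc2, hcc⟩ _ hv hv0 τ (by linarith) (by linarith))
  refine shift_vol (δ := Real.pi / XX T c) (by positivity) h2 ((ENNReal.ofReal_le_ofReal h3).trans h4) ?_
  intro t ht1 ht2 ht3
  refine ⟨ht2, ht3, ?_⟩
  have h5 : c + θ * √c ≤ (zc (Ico (t + Real.pi / XX T c - Real.pi / XX T c) (t + Real.pi / XX T c + Real.pi / XX T c)) : ℝ) := ht1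
  rw [add_sub_cancel_right] at h5
  have h6 : t + Real.pi / XX T c + Real.pi / XX T c = t + c * sp T := by
    unfold XX sp
    field_simp
    ring
  rwa [h6] at h5

theorem mm_of (ht : ToMeas) (hm : Few) (hz : ZcMeas) : Mm := by
  obtain ⟨A, c1, T1, hA, ht⟩ := ht
  obtain ⟨θ, c2, T2, hθ, hm⟩ := hm
  have hl := Real.tendsto_log_atTop
  have hll : Tendsto (fun T : ℝ => Real.log (Real.log T)) atTop atTop := hl.comp hl
  obtain ⟨T3, hT3⟩ := eventually_atTop.mp ((numbers hA).and ((hl.eventually_gt_atTop 0).and ((hll.eventually_gt_atTop 0).and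
    (eventually_ge_atTop 1))))
  refine ⟨θ, A + 1, 3, max 1 (max c1 c2), 1 / 16, max T3 (max T1 T2), hθ, by linarith, by norm_num, le_max_left _ _, by norm_num,
    fun T hT c hc0 hc1 => ?_⟩
  obtain ⟨h1, hL, hLL, hT1⟩ := hT3 T ((le_max_left _ _).trans hT)
  have hc1' : 1 ≤ c := (le_max_left _ _).trans hc0
  have hcc := adm_of hL hLL hc1
  have hcc1 : c1 ≤ c := (le_max_left _ _).trans ((le_max_right _ _).trans hc0)
  have hcc2 : c2 ≤ c := (le_max_right _ _).trans ((le_max_right _ _).trans hc0)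
  obtain ⟨h2, h3⟩ := h1 c hc1' hcc
  have hX : 0 < XX T c := by unfold XX; positivity
  have hpi := Real.pi_pos
  have hpi3 := Real.pi_gt_three
  have hv : (√c / 10) ^ 2 = c / 100 := by
    rw [div_pow, Real.sq_sqrt (by linarith)]; norm_num
  have hv0 : 0 < √c / 10 := by
    have : 0 < √c := Real.sqrt_pos.mpr (by linarith)
    linarith
  set G : Set ℝ := {t : ℝ | (zc (Ico (t - Real.pi / XX T c) (t + Real.pi / XX T c)) : ℝ) ≤ c - θ * √c ∧
          ∃ ρ : ZS, t - Real.pi / XX T c - 16 / XX T c ≤ (ρ : ℂ).im ∧ (ρ : ℂ).im < t - Real.pi / XX T c} with hG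
  have hGm : MeasurableSet G := by
    have e : G = {t : ℝ | (zc (Ico (t - Real.pi / XX T c) (t + Real.pi / XX T c)) : ℝ) ≤ c - θ * √c} ∩
        ⋃ ρ : ZS, {t : ℝ | t - Real.pi / XX T c - 16 / XX T c ≤ (ρ : ℂ).im ∧ (ρ : ℂ).im < t - Real.pi / XX T c} := by
      ext t
      simp only [hG, mem_ofPred_eq, mem_inter_iff, mem_iUnion]
    rw [e]
    apply MeasurableSet.inter (measurableSet_le (hz _) measurable_const)
    apply MeasurableSet.iUnion
    intro ρ
    have h5 : Measurable fun t : ℝ => t - Real.pi / XX T c - 16 / XX T c := by fun_prop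
    have h6 : Measurable fun t : ℝ => t - Real.pi / XX T c := by fun_prop
    exact (measurableSet_le h5 measurable_const).inter (measurableSet_lt measurable_const h6)
  have h4 := ht T ((le_max_left _ _).trans ((le_max_right _ _).trans hT)) c ⟨hcc1, hcc⟩ _ hv G hGm (fun τ hτ1 hτ2 =>
    hm T ((le_max_right _ _).trans ((le_max_right _ _).trans hT)) c ⟨hcc2, hcc⟩ _ hv hv0 τ (by linarith) (by linarith))
  refine shift_vol (δ := Real.pi / XX T c) (by positivity) h2 ((ENNReal.ofReal_le_ofReal h3).trans h4) ?_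
  intro t ht1 ht2 ht3
  obtain ⟨h5, ρ, h7, h8⟩ := ht1
  have h6 : t + Real.pi / XX T c + Real.pi / XX T c = t + c * sp T := by
    unfold XX sp
    field_simp
    ring
  rw [add_sub_cancel_right, h6] at h5
  rw [add_sub_cancel_right] at h7 h8
  refine ⟨ht2, ht3, h5, (ρ : ℂ).im, ⟨ρ, ?_, rfl⟩, ?_, h8⟩
  · exact isNontrivialZero_iff.mpr ρ.2
  · refine le_trans ?_ h7
    have : 16 / XX T c ≤ 3 * c * sp T := by
      unfold XX sp
      rw [div_div_eq_mul_div, mul_div_assoc', div_le_div_iff_of_pos_right hL]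
      nlinarith
    linarith

end Pool.Agent.Helper93.UG
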