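import Pool.Agent.Helper69.UG.Defs
import Pool.Agent.Helper54.LG.Mu

/-!
# UG-Q0: from the weight to the measure in `[T, 2T]`
-/

set_option autoImplicit false
open MeasureTheory Set Filter Topology
open Pool.Agent.Helper57.Zeta Pool.Agent.Helper57.LH Pool.Agent.Helper57.ED Pool.Agent.Helper54.LG
open Pool.Agent.Helper69.UG

namespace Pool.Agent.Helper93.UG

/-- R7, the fourth moment. -/
def M4 : Prop := ∃ A c0 T0 : ℝ, ∀ T, T0 ≤ T → ∀ c, Adm c0 T c → ∀ v : ℝ, v ^ 2 = c / 100 → ∀ τ : ℝ,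
    Integrable (fun t => PW (WW T) (t - τ) * ‖RR T c v t‖ ^ 4) ∧
    ∫ t, PW (WW T) (t - τ) * ‖RR T c v t‖ ^ 4 ≤ Real.exp (A * c) * VV T c v ^ 2

lemma one_le_VV {T c : ℝ} (hT : 1 ≤ T) (v : ℝ) : 1 ≤ VV T c v := by
  unfold VV
  have h1 : 1 ≤ NR T := by
    unfold NR
    exact Nat.le_floor (by exact_mod_cast Real.one_le_rpow hT (by norm_num))
  have h2 : (1:ℕ) ∈ Finset.Icc 1 (NR T) := Finset.mem_Icc.mpr ⟨le_rfl, h1⟩
  have h3 : rr T c v 1 = 1 := by
    unfold rr
    simp
  have h4 := Finset.single_le_sum (f := fun n : ℕ => rr T c v n ^ 2 / (n : ℝ)) (fun i _ => by positivity) h2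
  simp only [h3] at h4
  simpa using h4

lemma RR_cont (T c v : ℝ) : Continuous (RR T c v) := by
  unfold RR
  apply continuous_finsetSum
  intro n hn
  have hn1 : (n : ℂ) ≠ 0 := by
    have := (Finset.mem_Icc.mp hn).1
    exact_mod_cast (by omega : n ≠ 0)
  apply continuous_const.mul
  apply Continuous.const_cpow (by fun_prop)
  left; exact hn1

/-- the measure of a set from its weight. -/
lemma mu_ge {T c v τ A : ℝ} (hT : 1 ≤ T) {S : Set ℝ} (hS : MeasurableSet S)
    (h4 : Integrable (fun t => PW (WW T) (t - τ) * ‖RR T c v t‖ ^ 4))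
    (h4' : ∫ t, PW (WW T) (t - τ) * ‖RR T c v t‖ ^ 4 ≤ Real.exp (A * c) * VV T c v ^ 2)
    (h : Real.exp (-c) * VV T c v ≤ ∫ t in S, wt T c v τ t) :
    Real.exp (-((A + 2) * c)) ≤ (mu (WW T) τ S).toReal := by
  have hV := one_le_VV (c := c) hT v
  have hV0 : 0 < VV T c v := by linarith
  have hW : 0 < WW T := by unfold WW; positivity
  set B := Real.exp (A * c) * VV T c v ^ 2 with hB
  have hB0 : 0 < B := by positivity
  set a := Real.exp (-c) * VV T c v with ha
  have ha0 : 0 < a := by positivity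
  set l := a / B with hl
  have hl0 : 0 < l := by positivity
  have hPi : Integrable (fun t => PW (WW T) (t - τ)) := (integral_PW hW).1.comp_sub_right τ
  have hmu : (mu (WW T) τ S).toReal = ∫ t in S, PW (WW T) (t - τ) := by
    unfold mu
    rw [withDensity_apply _ hS, ← ofReal_integral_eq_lintegral_ofReal hPi.integrableOn
      (Eventually.of_forall fun t => (PW_pos hW _).le)]
    rw [ENNReal.toReal_ofReal]
    exact setIntegral_nonneg hS fun t _ => (PW_pos hW _).le
  have hpt : ∀ t, wt T c v τ t ≤ l / 2 * (PW (WW T) (t - τ) * ‖RR T c v t‖ ^ 4) + 1 / (2 * l) * PW (WW T) (t - τ) := by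
    intro t
    unfold wt
    have hp := PW_pos hW (t - τ)
    have h1 : ‖RR T c v t‖ ^ 2 ≤ l / 2 * ‖RR T c v t‖ ^ 4 + 1 / (2 * l) := by
      have h2 : 0 ≤ (l * ‖RR T c v t‖ ^ 2 - 1) ^ 2 := sq_nonneg _
      have h3 : l / 2 * ‖RR T c v t‖ ^ 4 + 1 / (2 * l) - ‖RR T c v t‖ ^ 2 = (l * ‖RR T c v t‖ ^ 2 - 1) ^ 2 / (2 * l) := by
        field_simp
        ring
      have h4 : 0 ≤ (l * ‖RR T c v t‖ ^ 2 - 1) ^ 2 / (2 * l) := by positivity
      linarith
    calc PW (WW T) (t - τ) * ‖RR T c v t‖ ^ 2 ≤ PW (WW T) (t - τ) * (l / 2 * ‖RR T c v t‖ ^ 4 + 1 / (2 * l)) :=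
          mul_le_mul_of_nonneg_left h1 hp.le
      _ = _ := by ring
  have hi : Integrable (fun t => l / 2 * (PW (WW T) (t - τ) * ‖RR T c v t‖ ^ 4) + 1 / (2 * l) * PW (WW T) (t - τ)) :=
    (h4.const_mul _).add (hPi.const_mul _)
  have hwm : AEStronglyMeasurable (fun t => wt T c v τ t) volume := by
    unfold wt
    apply Continuous.aestronglyMeasurable
    have h1 : Continuous fun t => PW (WW T) (t - τ) := by
      unfold PW
      have := Real.pi_pos
      apply Continuous.div continuous_const (by fun_prop)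
      intro t
      positivity
    exact h1.mul ((RR_cont T c v).norm.pow 2)
  have hwi : Integrable (fun t => wt T c v τ t) := by
    refine hi.mono' hwm (Eventually.of_forall fun t => ?_)
    rw [Real.norm_of_nonneg]
    · exact hpt t
    · unfold wt
      exact mul_nonneg (PW_pos hW _).le (by positivity)
  have h5 : ∫ t in S, wt T c v τ t ≤ l / 2 * B + 1 / (2 * l) * (mu (WW T) τ S).toReal := by
    calc ∫ t in S, wt T c v τ t ≤ ∫ t in S, (l / 2 * (PW (WW T) (t - τ) * ‖RR T c v t‖ ^ 4) + 1 / (2 * l) * PW (WW T) (t - τ)) :=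
          setIntegral_mono hwi.integrableOn hi.integrableOn hpt
      _ = l / 2 * (∫ t in S, PW (WW T) (t - τ) * ‖RR T c v t‖ ^ 4) + 1 / (2 * l) * ∫ t in S, PW (WW T) (t - τ) := by
          rw [integral_add (h4.const_mul _).integrableOn (hPi.const_mul _).integrableOn, integral_const_mul, integral_const_mul]
      _ ≤ l / 2 * B + 1 / (2 * l) * (mu (WW T) τ S).toReal := by
          rw [hmu]
          apply add_le_add _ le_rfl
          apply mul_le_mul_of_nonneg_left _ (by positivity)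
          refine le_trans ?_ h4'
          exact setIntegral_le_integral h4 (Eventually.of_forall fun t => mul_nonneg (PW_pos hW _).le (by positivity))
  have h6 : a ≤ l / 2 * B + 1 / (2 * l) * (mu (WW T) τ S).toReal := h.trans h5
  have h7 : l / 2 * B = a / 2 := by rw [hl]; field_simp
  have h8 : a / 2 ≤ 1 / (2 * l) * (mu (WW T) τ S).toReal := by linarith
  have h9 : a * l ≤ (mu (WW T) τ S).toReal := by
    have h10 : 1 / (2 * l) * (mu (WW T) τ S).toReal = (mu (WW T) τ S).toReal / (2 * l) := by ring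
    rw [h10, le_div_iff₀ (by positivity)] at h8
    linarith
  refine le_trans (le_of_eq ?_) h9
  rw [hl, ha, hB]
  have e1 : Real.exp (-c) * VV T c v * (Real.exp (-c) * VV T c v / (Real.exp (A * c) * VV T c v ^ 2)) =
      Real.exp (-c) * Real.exp (-c) / Real.exp (A * c) := by
    field_simp
  rw [e1, ← Real.exp_add, ← Real.exp_sub]
  congr 1
  ring

/-- shift of the set. -/
lemma mu_shift {W τ s : ℝ} (hW : 0 < W) (hs : 2 * s ^ 2 ≤ W ^ 2) {G : Set ℝ} (hG : MeasurableSet G) :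
    mu W τ {t : ℝ | t + s ∈ G} ≤ 2 * mu W τ G := by
  have hS : MeasurableSet {t : ℝ | t + s ∈ G} := by
    have : Measurable fun t : ℝ => t + s := by fun_prop
    exact this hG
  unfold mu
  rw [withDensity_apply _ hS, withDensity_apply _ hG]
  have hpre : {t : ℝ | t + s ∈ G} = (fun t : ℝ => t + s) ⁻¹' G := rfl
  have hmp : MeasurePreserving (fun t : ℝ => t + s) volume volume := measurePreserving_add_right volume s
  have e1 : ∫⁻ t in {t : ℝ | t + s ∈ G}, ENNReal.ofReal (PW W (t - τ)) =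
      ∫⁻ t in G, ENNReal.ofReal (PW W (t - s - τ)) := by
    rw [hpre]
    have := hmp.setLIntegral_comp_preimage (s := G) hG (f := fun t => ENNReal.ofReal (PW W (t - s - τ)))
      (by unfold PW; fun_prop)
    rw [← this]
    apply lintegral_congr
    intro t
    congr 2
    ring
  rw [e1, ← lintegral_const_mul _ (by unfold PW; fun_prop)]
  apply lintegral_mono
  intro t
  show ENNReal.ofReal (PW W (t - s - τ)) ≤ 2 * ENNReal.ofReal (PW W (t - τ))
  rw [show (2 : ENNReal) = ENNReal.ofReal 2 by simp, ← ENNReal.ofReal_mul (by norm_num)]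
  apply ENNReal.ofReal_le_ofReal
  unfold PW
  have hpi := Real.pi_pos
  rw [← mul_div_assoc, div_le_div_iff₀ (by positivity) (by positivity)]
  have h1 : W ^ 2 + (t - τ) ^ 2 ≤ 2 * (W ^ 2 + (t - s - τ) ^ 2) := by
    nlinarith [sq_nonneg (t - τ - 2 * s)]
  have h2 : 0 < W * Real.pi := by positivity
  nlinarith [mul_le_mul_of_nonneg_left h1 h2.le]

/-- average over the centres. -/
lemma avg_mu {W a b : ℝ} (hW : 0 < W) {S : Set ℝ} (hS : MeasurableSet S) :
    ∫⁻ τ in Icc a b, mu W τ S ≤ volume S := by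
  have e : ∀ τ, mu W τ S = ∫⁻ t in S, ENNReal.ofReal (PW W (t - τ)) := by
    intro τ
    unfold mu
    rw [withDensity_apply _ hS]
  simp_rw [e]
  rw [lintegral_lintegral_swap]
  · calc ∫⁻ t in S, ∫⁻ τ in Icc a b, ENNReal.ofReal (PW W (t - τ)) ≤ ∫⁻ t in S, 1 := by
          apply lintegral_mono
          intro t
          calc ∫⁻ τ in Icc a b, ENNReal.ofReal (PW W (t - τ)) ≤ ∫⁻ τ, ENNReal.ofReal (PW W (t - τ)) :=
                setLIntegral_le_lintegral _ _
            _ = ∫⁻ x, ENNReal.ofReal (PW W x) := lintegral_sub_left_eq_self (fun x => ENNReal.ofReal (PW W x)) t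
            _ = 1 := by
                rw [← ofReal_integral_eq_lintegral_ofReal (integral_PW hW).1 (Eventually.of_forall fun t => (PW_pos hW _).le),
                  (integral_PW hW).2, ENNReal.ofReal_one]
      _ = volume S := by simp
  · have : Measurable (Function.uncurry fun (τ t : ℝ) => ENNReal.ofReal (PW W (t - τ))) := by
      unfold PW
      unfold Function.uncurry
      fun_prop
    exact this.aemeasurable

/-- from all centres in `[5T/4, 7T/4]` to the Lebesgue measure in `[T, 2T]`. -/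
lemma vol_ge {T W m : ℝ} (hT : 0 < T) (hW : 0 < W) {G : Set ℝ} (hG : MeasurableSet G)
    (h : ∀ τ, 5 / 4 * T ≤ τ → τ ≤ 7 / 4 * T → ENNReal.ofReal m ≤ mu W τ G) :
    ENNReal.ofReal (m * (T / 2)) ≤ volume (G ∩ Icc T (2 * T)) + ENNReal.ofReal (2 * W) := by
  have hpi := Real.pi_pos
  have hpi3 := Real.pi_gt_three
  have hI : volume (Icc (5 / 4 * T) (7 / 4 * T)) = ENNReal.ofReal (T / 2) := by
    rw [Real.volume_Icc]; congr 1; ring
  have h1 : ∀ τ ∈ Icc (5 / 4 * T) (7 / 4 * T), ENNReal.ofReal m ≤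
      mu W τ (G ∩ Icc T (2 * T)) + ENNReal.ofReal (2 * W / (Real.pi * (T / 4))) := by
    intro τ hτ
    refine (h τ hτ.1 hτ.2).trans ?_
    have hsub : G ⊆ (G ∩ Icc T (2 * T)) ∪ {t | T / 4 ≤ |t - τ|} := by
      intro t ht
      by_cases h2 : t ∈ Icc T (2 * T)
      · left; exact ⟨ht, h2⟩
      · right
        rw [mem_Icc, not_and_or, not_le, not_le] at h2
        show T / 4 ≤ |t - τ|
        have h3 := hτ.1
        have h4 := hτ.2
        rcases h2 with h2 | h2
        · rw [abs_of_nonpos (by linarith)]; linarith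
        · rw [abs_of_nonneg (by linarith)]; linarith
    refine (measure_mono hsub).trans ((measure_union_le _ _).trans ?_)
    exact add_le_add le_rfl (mu_tail hW (by positivity) τ)
  have h2 : ∫⁻ τ in Icc (5 / 4 * T) (7 / 4 * T), ENNReal.ofReal m ≤
      ∫⁻ τ in Icc (5 / 4 * T) (7 / 4 * T), (mu W τ (G ∩ Icc T (2 * T)) + ENNReal.ofReal (2 * W / (Real.pi * (T / 4)))) := by
    apply setLIntegral_mono' measurableSet_Icc h1
  have hm0 : ENNReal.ofReal (m * (T / 2)) = ∫⁻ τ in Icc (5 / 4 * T) (7 / 4 * T), ENNReal.ofReal m := by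
    rw [lintegral_const, Measure.restrict_apply MeasurableSet.univ, univ_inter, hI, ← ENNReal.ofReal_mul' (show (0:ℝ) ≤ T / 2 by positivity)]
  rw [hm0]
  refine h2.trans ?_
  rw [lintegral_add_right _ measurable_const]
  apply add_le_add
  · exact avg_mu hW (hG.inter measurableSet_Icc)
  · have hq : (0:ℝ) ≤ 2 * W / (Real.pi * (T / 4)) := by positivity
    rw [lintegral_const, Measure.restrict_apply MeasurableSet.univ, univ_inter, hI, ← ENNReal.ofReal_mul hq]
    apply ENNReal.ofReal_le_ofReal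
    have e : 2 * W / (Real.pi * (T / 4)) * (T / 2) = 4 * W / Real.pi := by
      field_simp
      try ring
    rw [e, div_le_iff₀ hpi]
    nlinarith

theorem to_meas_of (hm4 : M4) : ∃ A c0 T0 : ℝ, 0 < A ∧ ∀ T, T0 ≤ T → ∀ c, Adm c0 T c → ∀ v : ℝ, v ^ 2 = c / 100 → ∀ G : Set ℝ,
    MeasurableSet G →
    (∀ τ, 5 / 4 * T ≤ τ → τ ≤ 7 / 4 * T → ∃ s : ℝ, |s| ≤ √T ∧
      Real.exp (-c) * VV T c v ≤ ∫ t in {t : ℝ | t + s ∈ G}, wt T c v τ t) →
    ENNReal.ofReal (Real.exp (-(A * c)) * T) ≤ volume (G ∩ Icc T (2 * T)) := by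
  obtain ⟨A1, c1, T1, h4⟩ := hm4
  set A2 := max A1 0 + 2 with hA2
  have hA20 : 2 ≤ A2 := by rw [hA2]; linarith [le_max_right A1 0]
  have hl := Real.tendsto_log_atTop
  have hll : Tendsto (fun T : ℝ => Real.log (Real.log T)) atTop atTop := hl.comp hl
  have e1 : ∀ᶠ T : ℝ in atTop, 512 * A2 ≤ Real.log (Real.log T) := hll.eventually_ge_atTop _
  have e2 : ∀ᶠ T : ℝ in atTop, 32 ≤ T ^ (1 / 8192 : ℝ) := (tendsto_rpow_atTop (by norm_num)).eventually_ge_atTop _
  have e3 : ∀ᶠ T : ℝ in atTop, 2 ≤ T ^ (4095 / 4096 * 2 - 1 : ℝ) := (tendsto_rpow_atTop (by norm_num)).eventually_ge_atTop _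
  obtain ⟨T2, hT2⟩ := eventually_atTop.mp (e1.and (e2.and (e3.and ((eventually_ge_atTop 1).and (hl.eventually_ge_atTop 1)))))
  refine ⟨A2 + 3, max c1 1, max T1 T2, by linarith, fun T hT c hc v hv G hG hyp => ?_⟩
  obtain ⟨h1, h2, h3, hT1, hL1⟩ := hT2 T ((le_max_right _ _).trans hT)
  obtain ⟨hc1, hc2⟩ := hc
  have hcA : Adm c1 T c := ⟨(le_max_left _ _).trans hc1, hc2⟩
  have hc11 : 1 ≤ c := (le_max_right _ _).trans hc1
  have hT0 : 0 < T := by linarith
  have hW : 0 < WW T := by unfold WW; positivity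
  have hV := one_le_VV (c := c) hT1 v
  -- each centre
  have hmu : ∀ τ, 5 / 4 * T ≤ τ → τ ≤ 7 / 4 * T → ENNReal.ofReal (Real.exp (-(A2 * c)) / 2) ≤ mu (WW T) τ G := by
    intro τ hτ1 hτ2
    obtain ⟨s, hs, hw⟩ := hyp τ hτ1 hτ2
    have hS : MeasurableSet {t : ℝ | t + s ∈ G} := by
      have : Measurable fun t : ℝ => t + s := by fun_prop
      exact this hG
    obtain ⟨i1, i2⟩ := h4 T ((le_max_left _ _).trans hT) c hcA v hv τ
    have i3 : ∫ t, PW (WW T) (t - τ) * ‖RR T c v t‖ ^ 4 ≤ Real.exp ((A2 - 2) * c) * VV T c v ^ 2 := by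
      refine i2.trans ?_
      apply mul_le_mul_of_nonneg_right _ (by positivity)
      apply Real.exp_le_exp.mpr
      apply mul_le_mul_of_nonneg_right _ (by linarith)
      rw [hA2]; linarith [le_max_left A1 0]
    have i4 := mu_ge hT1 hS i1 i3 hw
    rw [sub_add_cancel] at i4
    have hfin : mu (WW T) τ {t : ℝ | t + s ∈ G} ≠ ⊤ := by
      have := mu_prob hW τ
      exact measure_ne_top _ _
    have i5 : ENNReal.ofReal (Real.exp (-(A2 * c))) ≤ mu (WW T) τ {t : ℝ | t + s ∈ G} := by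
      rw [ENNReal.ofReal_le_iff_le_toReal hfin]; exact i4
    have hs2 : 2 * s ^ 2 ≤ WW T ^ 2 := by
      have h5 : s ^ 2 ≤ T := by
        rw [← sq_abs]
        calc |s| ^ 2 ≤ √T ^ 2 := by gcongr
          _ = T := Real.sq_sqrt hT0.le
      have h6 : WW T ^ 2 = T ^ (4095 / 4096 * 2 - 1 : ℝ) * T := by
        unfold WW
        rw [← Real.rpow_natCast, ← Real.rpow_mul hT0.le, ← Real.rpow_add_one hT0.ne']
        congr 1
        push_cast
        ring
      rw [h6]
      calc 2 * s ^ 2 ≤ 2 * T := by linarith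
        _ ≤ _ := mul_le_mul_of_nonneg_right h3 hT0.le
    have i6 := i5.trans (mu_shift (τ := τ) hW hs2 hG)
    have i7 : ENNReal.ofReal (Real.exp (-(A2 * c)) / 2) = ENNReal.ofReal (Real.exp (-(A2 * c))) / 2 := by
      rw [ENNReal.ofReal_div_of_pos (by norm_num)]; simp
    rw [i7]
    apply ENNReal.div_le_of_le_mul'
    exact i6
  have hvol := vol_ge hT0 hW hG hmu
  -- numbers
  have hx : T ^ (-(1 / 8192) : ℝ) ≤ Real.exp (-(A2 * c)) := by
    rw [Real.rpow_def_of_pos hT0]
    apply Real.exp_le_exp.mpr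
    have hL0 : 0 < Real.log T := by linarith
    have h5 : c * (512 * A2) ≤ Real.log T / 16 := (mul_le_mul_of_nonneg_left h1 (by linarith)).trans hc2
    linarith
  have hy : Real.exp (-(3 * c)) ≤ 1 / 8 := by
    have h5 : Real.exp (-(3 * c)) ≤ Real.exp (-3) := Real.exp_le_exp.mpr (by linarith)
    have h6 : (8:ℝ) ≤ Real.exp 3 := by
      have h7 := Real.exp_one_gt_d9
      have h8 : Real.exp 3 = Real.exp 1 ^ 3 := by rw [← Real.exp_nat_mul]; norm_num
      rw [h8]
      calc (8:ℝ) = 2 ^ 3 := by norm_num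
        _ ≤ Real.exp 1 ^ 3 := by gcongr; linarith
    rw [Real.exp_neg] at h5 ⊢
    refine le_trans ?_ (show (8:ℝ)⁻¹ ≤ 1 / 8 by norm_num)
    apply inv_anti₀ (by norm_num)
    refine h6.trans (Real.exp_le_exp.mpr (by linarith))
  have hz : 2 * WW T ≤ 1 / 8 * (T ^ (-(1 / 8192) : ℝ) * T) := by
    have e5 : WW T = T ^ (-(1 / 8192) : ℝ) * T ^ (-(1 / 8192) : ℝ) * T := by
      unfold WW
      rw [← Real.rpow_add hT0, ← Real.rpow_add_one hT0.ne']
      norm_num
    have e6 : T ^ (-(1 / 8192) : ℝ) ≤ 1 / 32 := by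
      rw [Real.rpow_neg hT0.le, ← one_div]
      exact one_div_le_one_div_of_le (by norm_num) h2
    rw [e5]
    have e7 : 0 < T ^ (-(1 / 8192) : ℝ) * T := by positivity
    nlinarith [mul_le_mul_of_nonneg_right e6 e7.le]
  have hfinal : Real.exp (-((A2 + 3) * c)) * T + 2 * WW T ≤ Real.exp (-(A2 * c)) / 2 * (T / 2) := by
    have e8 : Real.exp (-((A2 + 3) * c)) = Real.exp (-(A2 * c)) * Real.exp (-(3 * c)) := by
      rw [← Real.exp_add]; congr 1; ring
    rw [e8]
    have e9 : Real.exp (-(A2 * c)) * Real.exp (-(3 * c)) * T ≤ Real.exp (-(A2 * c)) * (1 / 8) * T := by gcongr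
    have e10 : T ^ (-(1 / 8192) : ℝ) * T ≤ Real.exp (-(A2 * c)) * T := by gcongr
    linarith
  have h10 : ENNReal.ofReal (Real.exp (-((A2 + 3) * c)) * T) + ENNReal.ofReal (2 * WW T) ≤
      volume (G ∩ Icc T (2 * T)) + ENNReal.ofReal (2 * WW T) := by
    rw [← ENNReal.ofReal_add (by positivity) (by positivity)]
    exact (ENNReal.ofReal_le_ofReal hfinal).trans hvol
  exact (ENNReal.add_le_add_iff_right ENNReal.ofReal_ne_top).mp h10

end Pool.Agent.Helper93.UG
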